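import Pool.Agent.RFN.SFinal
import Pool.Agent.H80RF.Luzin

/-!
# Q1 is independent of ZFC

Q1: no `ℝ`-factorizable topological group is homeomorphic to the product of a topological group and
an uncountable discrete space.

(1) (theorem of ZFC) If an `ℝ`-factorizable Hausdorff topological group is homeomorphic to `X × D`
for some topological space `X` and some uncountable discrete space `D`, then `2 ^ ℵ₁ = 2 ^ ℵ₀`. So
Q1 is true in every model of ZFC in which `2 ^ ℵ₀ < 2 ^ ℵ₁`.

(2) There is a countable transitive model `M` of ZFC in which Q1 is false: in `M` there are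
an `ℝ`-factorizable Hausdorff topological group `G`, a Hausdorff topological group `H` and an
uncountable discrete space `D` such that `G` is homeomorphic to `H × D`. The notions of `M` are
defined in `Pool/Agent/RFN/TDefs.lean`: `Choice M` is the axiom of choice in `M` and `NegQ1 M` is the
negation of Q1 in `M`.
-/

namespace Pool.Agent.Results.MP_8a5e40_gt.Independence

universe u v w

open Pool.Agent.H87RF Pool.Agent.RFN Pool.Agent.H78.ZF Cardinal

theorem result :
    (∀ (G : Type u) [Group G] [TopologicalSpace G] [IsTopologicalGroup G] [T2Space G]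
      (X : Type w) [TopologicalSpace X] (D : Type v) [TopologicalSpace D] [DiscreteTopology D]
      [Uncountable D], IsRFactorizable G → Nonempty (G ≃ₜ X × D) →
        (2 : Cardinal.{0}) ^ (ℵ₁ : Cardinal.{0}) = 2 ^ (ℵ₀ : Cardinal.{0})) ∧
    ∃ (M : Set ZFSet.{0}) (h : IsZFModel fun x y : M => x.1 ∈ y.1),
      M.Countable ∧ (∀ x ∈ M, ∀ y ∈ x, y ∈ M) ∧
        letI : ZFM M := ⟨fun x y => x.1 ∈ y.1, h⟩
        Choice M ∧ NegQ1 M := by
  refine ⟨?_, exists_model⟩
  intro G _ _ _ _ X _ D _ _ _ hG ⟨e⟩
  have hc : Continuous fun y : G => (e y).2 := continuous_snd.comp e.continuous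
  refine Pool.Agent.H80RF.two_pow_aleph_one (U := fun d => {x : G | (e x).2 = d}) hG ?_ ?_ ?_
  · intro x
    refine ⟨{y : G | (e y).2 = (e x).2}, ?_, ?_⟩
    · exact ((isOpen_discrete {(e x).2}).preimage hc).mem_nhds rfl
    · rintro d d' ⟨y, hy, hy'⟩ ⟨z, hz, hz'⟩
      have h1 : (e y).2 = d := hy
      have h2 : (e y).2 = (e x).2 := hy'
      have h3 : (e z).2 = d' := hz
      have h4 : (e z).2 = (e x).2 := hz'
      rw [← h1, h2, ← h4, h3]
  · intro d
    exact (isOpen_discrete {d}).preimage hc
  · intro d
    exact ⟨e.symm ((e 1).1, d), by simp⟩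

end Pool.Agent.Results.MP_8a5e40_gt.Independence
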