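import Pool.Agent.H80RF.Luzin

/-!
# `ℝ`-factorizable groups homeomorphic to a product with an uncountable discrete factor

Let `G` be an `ℝ`-factorizable (Hausdorff) topological group and let `D` be an uncountable set such
that `G` is homeomorphic to `X × D` for some space `X`, where `D` is discrete, or, more generally,
such that `G` has a discrete family of nonempty open sets indexed by `D`. Then
`2 ^ ℵ₁ = 2 ^ ℵ₀`. This is a theorem of ZFC.
-/

namespace Pool.Agent.Results.MP_8a5e40_gt.PowerEquality

universe u v w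

open Pool.Agent.H87RF Cardinal

theorem result (G : Type u) [Group G] [TopologicalSpace G] [IsTopologicalGroup G] [T2Space G]
    (hG : IsRFactorizable G) (D : Type v) [Uncountable D]
    (hD : (∃ (X : Type w) (_ : TopologicalSpace X) (_ : TopologicalSpace D)
        (_ : DiscreteTopology D), Nonempty (G ≃ₜ X × D)) ∨
      ∃ U : D → Set G, IsDiscreteFamily U ∧ ∀ d, IsOpen (U d) ∧ (U d).Nonempty) :
    (2 : Cardinal.{0}) ^ (ℵ₁ : Cardinal.{0}) = 2 ^ (ℵ₀ : Cardinal.{0}) := by
  rcases hD with ⟨X, _, _, _, ⟨e⟩⟩ | ⟨U, hd, hU⟩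
  · refine Pool.Agent.H80RF.two_pow_aleph_one (U := fun d => {x : G | (e x).2 = d}) hG ?_ ?_ ?_
    · intro x
      have hc : Continuous fun y : G => (e y).2 := continuous_snd.comp e.continuous
      refine ⟨{y : G | (e y).2 = (e x).2}, ?_, ?_⟩
      · exact ((isOpen_discrete {(e x).2}).preimage hc).mem_nhds rfl
      · rintro d d' ⟨y, hy, hy'⟩ ⟨z, hz, hz'⟩
        have h1 : (e y).2 = d := hy
        have h2 : (e y).2 = (e x).2 := hy'
        have h3 : (e z).2 = d' := hz
        have h4 : (e z).2 = (e x).2 := hz'
        rw [← h1, h2, ← h4, h3]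
    · intro d
      have hc : Continuous fun y : G => (e y).2 := continuous_snd.comp e.continuous
      exact (isOpen_discrete {d}).preimage hc
    · intro d
      exact ⟨e.symm ((e 1).1, d), by simp⟩
  · exact Pool.Agent.H80RF.two_pow_aleph_one hG hd (fun d => (hU d).1) (fun d => (hU d).2)

end Pool.Agent.Results.MP_8a5e40_gt.PowerEquality
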